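import Pool.Agent.R231.TG.Struct
import Pool.Agent.R231.TG.SunB

/-!
# Every graph whose blocks are chordless suns is Archimedean (MP_2a9c9f_co, Q1: proved)
-/

open Set

namespace Pool.Agent.Results.MP_2a9c9f_co.SunBlocksArchimedean

/-- The class `Φ`: symmetric, positive valued, Archimedean functions of two positive reals. -/
structure IsArchimedeanFunction (φ : ℝ → ℝ → ℝ) : Prop where
  symm : ∀ x y, 0 < x → 0 < y → φ x y = φ y x
  pos : ∀ x y, 0 < x → 0 < y → 0 < φ x y
  left : ∀ c, 0 < c → Filter.Tendsto (fun x => φ x c) Filter.atTop Filter.atTop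
  right : ∀ c, 0 < c → Filter.Tendsto (fun x => φ c x) Filter.atTop Filter.atTop

/-- `(([l v, r v])_v, (t v)_v)` is a `φ`-tolerance representation of `G`:
`uv` is an edge iff the length of `I_u ∩ I_v` is at least `φ (t u) (t v)`. -/
def IsToleranceRepresentation {V : Type*} (φ : ℝ → ℝ → ℝ) (G : SimpleGraph V)
    (l r t : V → ℝ) : Prop :=
  (∀ v, l v ≤ r v) ∧ (∀ v, 0 < t v) ∧
    ∀ u v, u ≠ v → (G.Adj u v ↔
      φ (t u) (t v) ≤ (MeasureTheory.volume (Icc (l u) (r u) ∩ Icc (l v) (r v))).toReal)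

/-- `G` is a `φ`-tolerance graph for every Archimedean `φ`. -/
def IsArchimedeanGraph {V : Type*} (G : SimpleGraph V) : Prop :=
  ∀ φ, IsArchimedeanFunction φ → ∃ l r t : V → ℝ, IsToleranceRepresentation φ G l r t

/-- `j` is the cyclic successor of `i`. -/
def CSucc {k : ℕ} (i j : Fin k) : Prop := i.val + 1 = j.val ∨ (i.val + 1 = k ∧ j.val = 0)

/-- The chordless sun `S_{k,k}` (for `k ≥ 3`): `inl i` is `v_i`, `inr i` is `u_i`, which is
adjacent exactly to `v_i` and `v_{i+1}`. -/
def sun (k : ℕ) : SimpleGraph (Fin k ⊕ Fin k) where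
  Adj x y := match x, y with
    | Sum.inl i, Sum.inl j => i ≠ j ∧ (CSucc i j ∨ CSucc j i)
    | Sum.inl i, Sum.inr j => i = j ∨ CSucc j i
    | Sum.inr j, Sum.inl i => i = j ∨ CSucc j i
    | Sum.inr _, Sum.inr _ => False
  symm := ⟨by
    rintro (i | i) (j | j) h
    · exact ⟨Ne.symm h.1, h.2.symm⟩
    · exact h
    · exact h
    · exact h⟩
  loopless := ⟨by
    rintro (i | i) h
    · exact h.1 rfl
    · exact h⟩

/-- `B` induces a block of `G`: a maximal connected induced subgraph without cut vertex. -/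
def IsBlock {V : Type*} (G : SimpleGraph V) (B : Set V) : Prop :=
  Maximal (fun C : Set V => (G.induce C).Connected ∧
    ∀ x ∈ C, (G.induce (C \ {x})).Preconnected) B

open Pool.Agent.R231.TG

section conn

variable {V : Type*}

lemma preconn_iff [DecidableEq V] (G : SimpleGraph V) (S : Finset V) :
    (G.induce (S : Set V)).Preconnected ↔ Cn G.Adj S := by
  constructor
  · intro h T hT hne hTS
    obtain ⟨a, ha⟩ := hne
    obtain ⟨b, hb, hbT⟩ : ∃ b ∈ S, b ∉ T := by
      by_contra hcon
      push Not at hcon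
      exact hTS (Finset.Subset.antisymm hT hcon)
    obtain ⟨p⟩ := h ⟨a, Finset.mem_coe.2 (hT ha)⟩ ⟨b, Finset.mem_coe.2 hb⟩
    obtain ⟨d, _, h1, h2⟩ := p.exists_boundary_dart {x | (x : V) ∈ T} ha hbT
    have h3 := d.adj
    refine ⟨d.fst, h1, d.snd, Finset.mem_coe.1 d.snd.2, h2, h3⟩
  · intro h u v
    by_contra hcon
    classical
    set T : Finset V := S.filter (fun x => ∃ hx : x ∈ (S : Set V),
      (G.induce (S : Set V)).Reachable u ⟨x, hx⟩) with hT
    have h1 : T ⊆ S := Finset.filter_subset _ _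
    have h2 : T.Nonempty := ⟨u, by
      rw [hT, Finset.mem_filter]
      exact ⟨Finset.mem_coe.1 u.2, u.2, SimpleGraph.Reachable.refl _⟩⟩
    have h3 : T ≠ S := by
      intro e
      have h4 : (v : V) ∈ T := by rw [e]; exact Finset.mem_coe.1 v.2
      rw [hT, Finset.mem_filter] at h4
      obtain ⟨_, hx, h5⟩ := h4
      exact hcon h5
    obtain ⟨x, hx, y, hy, hyT, e⟩ := h T h1 h2 h3
    rw [hT, Finset.mem_filter] at hx
    obtain ⟨_, hxS, hr⟩ := hx
    apply hyT
    rw [hT, Finset.mem_filter]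
    refine ⟨hy, Finset.mem_coe.2 hy, ?_⟩
    apply hr.trans
    apply SimpleGraph.Adj.reachable
    exact e

lemma NS_iff [DecidableEq V] (G : SimpleGraph V) (S : Finset V) :
    ((G.induce (S : Set V)).Connected ∧
      ∀ x ∈ (S : Set V), (G.induce ((S : Set V) \ {x})).Preconnected) ↔ NS G.Adj S := by
  unfold NS
  have h1 : ∀ x, (G.induce ((S : Set V) \ {x})).Preconnected ↔ Cn G.Adj (S.erase x) := by
    intro x
    rw [← preconn_iff, Finset.coe_erase]
  constructor
  · rintro ⟨h2, h3⟩
    refine ⟨?_, (preconn_iff G S).1 h2.preconnected, fun x hx => (h1 x).1 (h3 x hx)⟩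
    obtain ⟨⟨x, hx⟩⟩ := h2.nonempty
    exact ⟨x, hx⟩
  · rintro ⟨⟨z, hz⟩, h3, h4⟩
    refine ⟨?_, fun x hx => (h1 x).2 (h4 x hx)⟩
    have : Nonempty (S : Set V) := ⟨⟨z, hz⟩⟩
    exact ⟨(preconn_iff G S).2 h3⟩

end conn

/-- rotation of labels bringing the index `r` to `0` -/
def rot {k : ℕ} (r : ℕ) : Fin k ⊕ Fin k → ℕ × Bool
  | Sum.inl i => (if r ≤ i.val then i.val - r else i.val + k - r, false)
  | Sum.inr i => (if r ≤ i.val then i.val - r else i.val + k - r, true)

lemma rot_mem {k r : ℕ} (hr : r < k) (p : Fin k ⊕ Fin k) :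
    rot r p ∈ Finset.range k ×ˢ (Finset.univ : Finset Bool) := by
  rcases p with i | i
  all_goals
    have := i.isLt
    simp only [rot, Finset.mem_product, Finset.mem_range, Finset.mem_univ, and_true]
    split_ifs <;> omega

lemma rot_inj {k r : ℕ} (hr : r < k) {p q : Fin k ⊕ Fin k} (h : rot r p = rot r q) : p = q := by
  rcases p with i | i <;> rcases q with j | j
  · have hi := i.isLt
    have hj := j.isLt
    have h1 : (if r ≤ i.val then i.val - r else i.val + k - r) =
      (if r ≤ j.val then j.val - r else j.val + k - r) := congrArg Prod.fst h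
    congr 1
    apply Fin.ext
    split_ifs at h1 <;> omega
  · exact absurd (congrArg Prod.snd h) (by simp [rot])
  · exact absurd (congrArg Prod.snd h) (by simp [rot])
  · have hi := i.isLt
    have hj := j.isLt
    have h1 : (if r ≤ i.val then i.val - r else i.val + k - r) =
      (if r ≤ j.val then j.val - r else j.val + k - r) := congrArg Prod.fst h
    congr 1
    apply Fin.ext
    split_ifs at h1 <;> omega

lemma rot_adj {k r : ℕ} (hr : r < k) (p q : Fin k ⊕ Fin k) :
    (sun k).Adj p q ↔ sA k (rot r p) (rot r q) := by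
  rcases p with i | i <;> rcases q with j | j
  · have hi := i.isLt
    have hj := j.isLt
    have h0 : i ≠ j ↔ i.val ≠ j.val := by rw [Ne, Fin.ext_iff]
    change (i ≠ j ∧ (CSucc i j ∨ CSucc j i)) ↔ _
    rw [h0]
    simp only [rot, sA_ff, CSucc]
    split_ifs <;> omega
  · have hi := i.isLt
    have hj := j.isLt
    change (i = j ∨ CSucc j i) ↔ _
    rw [Fin.ext_iff]
    simp only [rot, sA_ft, CSucc]
    split_ifs <;> omega
  · have hi := i.isLt
    have hj := j.isLt
    change (j = i ∨ CSucc i j) ↔ _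
    rw [Fin.ext_iff]
    simp only [rot, sA_tf, CSucc]
    split_ifs <;> omega
  · change False ↔ _
    simp only [rot]
    exact ⟨fun h => h.elim, fun h => sA_tt h⟩

theorem SU_of_iso {V : Type*} [DecidableEq V] {G : SimpleGraph V} {B : Finset V} {k : ℕ}
    (hk : 3 ≤ k) (e : G.induce (B : Set V) ≃g sun k) {v : V} (hv : v ∈ B) :
    SU G.Adj B v := by
  haveI : Nonempty V := ⟨v⟩
  -- the index of the root
  have key : ∀ r, r < k → (rot r (e ⟨v, hv⟩) = (0, false) ∨ rot r (e ⟨v, hv⟩) = (0, true)) →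
      SU G.Adj B v := by
    intro r hr hroot
    set f : V → ℕ × Bool := fun x => if h : x ∈ B then rot r (e ⟨x, h⟩) else (0, false) with hf
    have fB : ∀ x (h : x ∈ B), f x = rot r (e ⟨x, h⟩) := fun x h => by simp [hf, h]
    have finj : Set.InjOn f (B : Set V) := by
      intro x hx y hy hxy
      rw [fB x hx, fB y hy] at hxy
      have h1 := e.injective (rot_inj hr hxy)
      exact congrArg Subtype.val h1
    have h1 : ∀ x ∈ B, f x ∈ Finset.range k ×ˢ (Finset.univ : Finset Bool) := by
      intro x hx; rw [fB x hx]; exact rot_mem hr _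
    have h2 : ∀ x ∈ B, Function.invFunOn f (B : Set V) (f x) = x := by
      intro x hx
      exact finj.leftInvOn_invFunOn hx
    have h3 : ∀ x ∈ B, ∀ y ∈ B, (G.Adj x y ↔ sA k (f x) (f y)) := by
      intro x hx y hy
      rw [fB x hx, fB y hy, ← rot_adj hr, e.map_adj_iff]
      rfl
    apply SU_transport f (Function.invFunOn f (B : Set V)) h1 h2 h3
    rw [fB v hv]
    rcases hroot with h | h
    · rw [h]; exact sunA hk
    · rw [h]; exact sunB hk
  rcases h : e ⟨v, hv⟩ with i | i
  · apply key i.val i.isLt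
    left
    rw [h]; simp [rot]
  · apply key i.val i.isLt
    right
    rw [h]; simp [rot]

/-- **Q1 (proved).** Every finite graph each of whose blocks is isomorphic to a chordless sun
`S_{k,k}` (`k ≥ 3`, possibly different for different blocks) is Archimedean. -/
theorem result : ∀ (V : Type*) [Finite V] (G : SimpleGraph V),
    (∀ B : Set V, IsBlock G B → ∃ k, 3 ≤ k ∧ Nonempty (G.induce B ≃g sun k)) →
    IsArchimedeanGraph G := by
  intro V _ G hG φ hφ
  classical
  haveI := Fintype.ofFinite V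
  have hφ' : Arch φ := ⟨hφ.symm, hφ.pos, hφ.left, hφ.right⟩
  have hsym : ∀ x y, G.Adj x y → G.Adj y x := fun x y h => h.symm
  have h1 := Rp_of_blocks (A := G.Adj) hsym hφ' _ (Finset.univ : Finset V) rfl (by
    intro B hB v hv
    have hblock : IsBlock G (B : Set V) := by
      refine ⟨(NS_iff G B).2 hB.2.1, ?_⟩
      intro C hC hBC
      have h2 : ((C.toFinset : Finset V) : Set V) = C := Set.coe_toFinset C
      have h3 : NS G.Adj C.toFinset := by
        rw [← NS_iff, h2]; exact hC
      have h4 := hB.2.2 C.toFinset (Finset.subset_univ _) (by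
        rw [← Finset.coe_subset, h2]; exact hBC) h3
      rw [← h2, h4]
    obtain ⟨k, hk, ⟨e⟩⟩ := hG _ hblock
    exact SU_of_iso hk e hv)
  obtain ⟨L, R, t, g1, g2, g3⟩ := h1
  refine ⟨L, R, t, fun v => g1 v (Finset.mem_univ _), fun v => g2 v (Finset.mem_univ _), ?_⟩
  intro u v huv
  rw [g3 u (Finset.mem_univ _) v (Finset.mem_univ _) huv, Set.Icc_inter_Icc, Real.volume_Icc,
    ENNReal.toReal_ofReal']
  unfold ov
  rw [max_comm (0 : ℝ)]

end Pool.Agent.Results.MP_2a9c9f_co.SunBlocksArchimedean
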